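import Pool.Agent.Helper82.BR.St

/-!
# Products of points on the unit circle are directions
-/

set_option autoImplicit false

namespace Pool.Agent.Helper85.BR

open Pool.Agent.Helper82.BR
open scoped ComplexConjugate

private lemma conj_mul_of_norm {p : ℂ} (hp : ‖p‖ = 1) : p * conj p = 1 := by
  rw [Complex.mul_conj, Complex.normSq_eq_norm_sq, hp]
  norm_num

private lemma key {s p q : ℂ} (hp : ‖p‖ = 1) (hq : ‖q‖ = 1) (hpq : p ≠ q)
    (h : dist s p = dist s q) : s = p * q * conj s := by
  have hP := conj_mul_of_norm hp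
  have hQ := conj_mul_of_norm hq
  have h1 : (s - p) * conj (s - p) = (s - q) * conj (s - q) := by
    rw [Complex.mul_conj, Complex.mul_conj, Complex.normSq_eq_norm_sq, Complex.normSq_eq_norm_sq]
    rw [dist_eq_norm, dist_eq_norm] at h
    rw [h]
  simp only [map_sub] at h1
  have h2 : (q - p) * (s - p * q * conj s) = 0 := by
    linear_combination (-(p * q)) * h1 + (p * q - s * q) * hP + (s * p - p * q) * hQ
  rcases mul_eq_zero.1 h2 with h3 | h3
  · exact absurd (sub_eq_zero.1 h3).symm hpq
  · exact sub_eq_zero.1 h3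

theorem hCB : StCB := by
  intro S hR h0 p hp q hq hp1 hq1
  by_cases hpq : p = q
  · subst hpq
    refine ⟨p, hp, ?_, ?_⟩
    · rintro rfl
      simp at hp1
    · have := conj_mul_of_norm hp1
      linear_combination (-p) * this
  · have hc := hR p hp q hq hpq
    obtain ⟨s, hs, hs0⟩ := Finset.exists_mem_ne (by omega : 1 < (S.filter (fun s => dist s p = dist s q)).card) 0
    rw [Finset.mem_filter] at hs
    exact ⟨s, hs.1, hs0, key hp1 hq1 hpq hs.2⟩

end Pool.Agent.Helper85.BR
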